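import Pool.Agent.W325.KZ.Defs

/-!
# Project KZ, KZ-FIN: many independent trials
-/

set_option autoImplicit false

open Finset MeasureTheory ProbabilityTheory Filter Topology

namespace Pool.Agent.W540.KZ

open Pool.Agent.W325.KZ

/-- lower bound for the union -/
theorem union_lb (hN : S_IND) (L : ℕ) (E B : ℕ → Set (ℕ → ℝ)) (S S' : ℕ → Set ℕ) (p : ℝ)
    (hp : 0 < p) (hp1 : p ≤ 1) (hL1 : 1 ≤ L * p) (hL2 : L * p ≤ 2)
    (hE : ∀ i < L, MeasurableSet (E i) ∧ DependsOn (fun a => a ∈ E i) (S i))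
    (hdisj : ∀ i < L, ∀ j < L, i ≠ j → Disjoint (S i) (S j))
    (hpE : ∀ i < L, ga (E i) = ENNReal.ofReal p)
    (hB : ∀ i < L, MeasurableSet (B i) ∧ DependsOn (fun a => a ∈ B i) (S' i) ∧
      ga (B i) ≤ ENNReal.ofReal (1 / 20))
    (hdisj' : ∀ i < L, Disjoint (S i) (S' i)) :
    (2⁻¹ : ENNReal) ≤ ga (⋃ i ∈ range L, E i \ B i) := by
  -- the complement
  have h1 : ga (⋂ i ∈ range L, (E i)ᶜ) ≤ ENNReal.ofReal (Real.exp (-1)) := by
    rw [hN L (fun i => (E i)ᶜ) S (fun i hi => ⟨(hE i hi).1.compl, ?_⟩) hdisj]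
    · have h2 : ∀ i ∈ range L, ga ((E i)ᶜ) = ENNReal.ofReal (1 - p) := by
        intro i hi
        rw [prob_compl_eq_one_sub (hE i (mem_range.1 hi)).1, hpE i (mem_range.1 hi),
          ENNReal.ofReal_sub _ hp.le, ENNReal.ofReal_one]
      rw [prod_congr rfl h2, prod_const, card_range, ← ENNReal.ofReal_pow (by linarith)]
      refine ENNReal.ofReal_le_ofReal ?_
      calc (1 - p) ^ L ≤ (Real.exp (-p)) ^ L :=
            pow_le_pow_left₀ (by linarith) (by linarith [Real.add_one_le_exp (-p)]) L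
        _ = Real.exp (-(L * p)) := by rw [← Real.exp_nat_mul]; congr 1; ring
        _ ≤ Real.exp (-1) := Real.exp_le_exp.2 (by linarith)
    · intro a a' h
      have := (hE i hi).2 h
      simp only at this
      show (a ∉ E i) = (a' ∉ E i)
      rw [this]
  -- the bad parts
  have h3 : ga (⋃ i ∈ range L, E i ∩ B i) ≤ ENNReal.ofReal (1 / 10) := by
    refine (measure_biUnion_finset_le _ _).trans ?_
    have h4 : ∀ i ∈ range L, ga (E i ∩ B i) ≤ ENNReal.ofReal (p / 20) := by
      intro i hi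
      have hi' := mem_range.1 hi
      have h5 := hN 2 (fun j => if j = 0 then E i else B i) (fun j => if j = 0 then S i else S' i)
        (by
          intro j hj
          interval_cases j
          · exact ⟨(hE i hi').1, (hE i hi').2⟩
          · exact ⟨(hB i hi').1, (hB i hi').2.1⟩)
        (by
          intro j hj j' hj' hne
          interval_cases j <;> interval_cases j'
          · exact absurd rfl hne
          · exact hdisj' i hi'
          · exact (hdisj' i hi').symm
          · exact absurd rfl hne)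
      have h6 : (⋂ j ∈ range 2, (if j = 0 then E i else B i)) = E i ∩ B i := by
        ext a
        simp only [Set.mem_iInter, mem_range, Set.mem_inter_iff]
        constructor
        · intro h
          exact ⟨h 0 (by norm_num), h 1 (by norm_num)⟩
        · rintro ⟨ha, hb⟩ j hj
          interval_cases j
          · exact ha
          · exact hb
      rw [h6] at h5
      rw [h5, prod_range_succ, prod_range_one]
      simp only [if_true, one_ne_zero, if_false]
      rw [hpE i hi']
      calc ENNReal.ofReal p * ga (B i) ≤ ENNReal.ofReal p * ENNReal.ofReal (1 / 20) := by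
            gcongr
            exact (hB i hi').2.2
        _ = ENNReal.ofReal (p / 20) := by
            rw [← ENNReal.ofReal_mul hp.le]
            congr 1
            ring
    refine (sum_le_sum h4).trans ?_
    rw [sum_const, card_range, nsmul_eq_mul]
    have h7 : ((L : ℕ) : ENNReal) = ENNReal.ofReal (L : ℝ) := (ENNReal.ofReal_natCast L).symm
    rw [h7, ← ENNReal.ofReal_mul (Nat.cast_nonneg L)]
    refine ENNReal.ofReal_le_ofReal ?_
    have : (L : ℝ) * (p / 20) = (L * p) / 20 := by ring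
    rw [this]
    linarith
  -- everything
  have h8 : (Set.univ : Set (ℕ → ℝ)) ⊆ ((⋃ i ∈ range L, E i \ B i) ∪
      (⋃ i ∈ range L, E i ∩ B i)) ∪ (⋂ i ∈ range L, (E i)ᶜ) := by
    intro a _
    by_cases h : ∃ i ∈ range L, a ∈ E i
    · obtain ⟨i, hi, ha⟩ := h
      left
      by_cases hb : a ∈ B i
      · right
        exact Set.mem_biUnion hi ⟨ha, hb⟩
      · left
        exact Set.mem_biUnion hi ⟨ha, hb⟩
    · right
      simp only [Set.mem_iInter]
      intro i hi ha
      exact h ⟨i, hi, ha⟩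
  have h9 : (1 : ENNReal) ≤ ga (⋃ i ∈ range L, E i \ B i) + ENNReal.ofReal (1 / 10) +
      ENNReal.ofReal (Real.exp (-1)) := by
    calc (1 : ENNReal) = ga Set.univ := by rw [measure_univ]
      _ ≤ _ := measure_mono h8
      _ ≤ _ := measure_union_le _ _
      _ ≤ _ := add_le_add (measure_union_le _ _) h1
      _ ≤ _ := by gcongr
  by_contra hcon
  rw [not_le] at hcon
  have hlt : ga (⋃ i ∈ range L, E i \ B i) + ENNReal.ofReal (1 / 10) +
      ENNReal.ofReal (Real.exp (-1)) < 1 := by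
    have e1 : ENNReal.ofReal (1 / 2) = (2⁻¹ : ENNReal) := by
      rw [ENNReal.ofReal_div_of_pos (by norm_num)]
      simp
    rw [← e1] at hcon
    calc ga (⋃ i ∈ range L, E i \ B i) + ENNReal.ofReal (1 / 10) + ENNReal.ofReal (Real.exp (-1)) ≤
        ENNReal.ofReal (1 / 2) + ENNReal.ofReal (1 / 10) + ENNReal.ofReal (Real.exp (-1)) := by
          gcongr
      _ = ENNReal.ofReal (1 / 2 + 1 / 10 + Real.exp (-1)) := by
          rw [ENNReal.ofReal_add (by norm_num) (Real.exp_pos _).le,
            ENNReal.ofReal_add (by norm_num) (by norm_num)]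
      _ < ENNReal.ofReal 1 := by
          rw [ENNReal.ofReal_lt_ofReal_iff (by norm_num)]
          linarith [Real.exp_neg_one_lt_d9]
      _ = 1 := ENNReal.ofReal_one
  exact absurd h9 (not_le.2 hlt)

theorem measurable_rv (N : ℕ) : Measurable (fun a : ℕ → ℝ => rv a N) := by
  rw [measurable_pi_iff]
  intro k
  exact measurable_pi_apply _

/-- numerical inequality -/
theorem num_ineq {K : ℕ} (hK : 50 ≤ K) {η l : ℝ} (hη : η = 1 / (2 * K)) (hl : 10 ≤ l)
    {K₁ J T : ℝ} (h1 : (2 / Real.pi - η) * (K * l) - 1 ≤ K₁) (h2 : 24 / Real.pi * l - 1 ≤ J)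
    (h3 : T ≤ (16 / Real.pi + η) * l + 1) :
    (2 / Real.pi + η) * (Real.log 2 + K * l) ≤ K₁ + J - T - 10 := by
  have hK0 : (50 : ℝ) ≤ K := by exact_mod_cast hK
  have hKpos : (0 : ℝ) < K := by linarith
  have hηpos : 0 < η := by rw [hη]; positivity
  have hη1 : η ≤ 1 / 100 := by
    rw [hη, div_le_div_iff₀ (by positivity) (by norm_num)]
    linarith
  have hηK : η * K = 1 / 2 := by rw [hη]; field_simp
  have hpi := Real.pi_pos
  have hpi2 := Real.pi_lt_d2
  have hpi3 := Real.pi_gt_three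
  set w := 1 / Real.pi with hw
  have hw1 : 0.31 < w := by
    rw [hw, lt_div_iff₀ hpi]
    linarith
  have hw2 : w < 0.34 := by
    rw [hw, div_lt_iff₀ hpi]
    linarith
  have e1 : 2 / Real.pi = 2 * w := by rw [hw]; ring
  have e2 : 24 / Real.pi = 24 * w := by rw [hw]; ring
  have e3 : 16 / Real.pi = 16 * w := by rw [hw]; ring
  rw [e1] at h1 ⊢
  rw [e2] at h2
  rw [e3] at h3
  have hlog2 : Real.log 2 < 0.7 := by linarith [Real.log_two_lt_d9]
  have hlog2' : 0 < Real.log 2 := Real.log_pos (by norm_num)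
  have hl0 : 0 < l := by linarith
  have e4 : η * (K * l) = l / 2 := by
    rw [← mul_assoc, hηK]; ring
  have m1 : (2 * w + η) * (Real.log 2 + K * l) = (2 * w + η) * Real.log 2 + 2 * w * (K * l) +
      l / 2 := by rw [mul_add, add_mul (2 * w) η (K * l), e4]; ring
  have m2 : (2 * w - η) * (K * l) = 2 * w * (K * l) - l / 2 := by
    rw [sub_mul, e4]
  rw [m1]
  rw [m2] at h1
  have m3 : (2 * w + η) * Real.log 2 ≤ 0.7 := by
    have : 2 * w + η ≤ 1 := by linarith
    nlinarith
  have m4 : 0.31 * l ≤ w * l := by nlinarith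
  have m5 : η * l ≤ 1 / 100 * l := by nlinarith
  have m6 : (16 * w + η) * l = 16 * (w * l) + η * l := by ring
  rw [m6] at h3
  have m7 : 24 * w * l = 24 * (w * l) := by ring
  rw [m7] at h2
  linarith

theorem fin (hS : S_SPEC) (hG : S_GOOD) (hT : S_STEP) (hN : S_IND) (hI : S_INJ) : S_FIN := by
  intro hHP
  obtain ⟨C, M₀, hC, hspec⟩ := hS
  obtain ⟨K', hK'⟩ := exists_nat_ge (8 * C + 20)
  set K := max 50 K' with hKdef
  have hK50 : 50 ≤ K := le_max_left _ _
  have hKC : 8 * C + 20 ≤ K := hK'.trans (by exact_mod_cast le_max_right _ _)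
  have hK0 : (0 : ℝ) < K := by
    have : (50 : ℝ) ≤ K := by exact_mod_cast hK50
    linarith
  set η : ℝ := 1 / (2 * K) with hη
  have hη0 : 0 < η := by positivity
  obtain ⟨qG, hqG⟩ := hG hHP K hK50 η hη0 (1 / 20) (by norm_num)
  obtain ⟨qS, hqS⟩ := hT C K hC hK50
  refine ⟨K, η, max (max qG qS) (max (2 ^ M₀) ⌈Real.exp 10⌉₊), by omega, hη0, fun r hr => ?_⟩
  set q := 2 ^ r with hq
  have hqG' : qG ≤ q := (le_max_left _ _).trans ((le_max_left _ _).trans hr)
  have hqS' : qS ≤ q := (le_max_right _ _).trans ((le_max_left _ _).trans hr)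
  have hrM : M₀ ≤ r := by
    have : 2 ^ M₀ ≤ 2 ^ r := (le_max_left _ _).trans ((le_max_right _ _).trans hr)
    exact (Nat.pow_le_pow_iff_right (by norm_num)).1 this
  have hqe : Real.exp 10 ≤ (q : ℝ) := by
    have h1 : ⌈Real.exp 10⌉₊ ≤ q := (le_max_right _ _).trans ((le_max_right _ _).trans hr)
    exact (Nat.le_ceil _).trans (by exact_mod_cast h1)
  have hq0 : (0 : ℝ) < q := lt_of_lt_of_le (Real.exp_pos _) hqe
  have hq0' : 0 < q := by exact_mod_cast hq0
  set l := Real.log q with hl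
  have hl10 : 10 ≤ l := (Real.le_log_iff_exp_le hq0).2 hqe
  have hq2 : (2 : ℝ) ≤ q := by
    have := Real.add_one_le_exp (10 : ℝ)
    linarith
  have hpi := Real.pi_pos
  have hm : 2 ^ (8 * r) = q ^ 8 := by rw [hq, ← pow_mul, mul_comm]
  -- parameters
  set J := ⌊24 / Real.pi * l⌋₊ with hJ
  set T := ⌈(16 / Real.pi + η) * l⌉₊ with hTT
  set K₁ := ⌊(2 / Real.pi - η) * (K * l)⌋₊ with hK₁
  have hη1 : η ≤ 1 / 100 := by
    have : (50 : ℝ) ≤ K := by exact_mod_cast hK50
    rw [hη, div_le_div_iff₀ (by positivity) (by norm_num)]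
    linarith
  have hpi4 : Real.pi < 4 := by linarith [Real.pi_lt_d2]
  have h2pi : 1 / 2 < 2 / Real.pi := by
    rw [lt_div_iff₀ hpi]
    linarith
  have hJ2 : (J : ℝ) ≤ 24 / Real.pi * l := Nat.floor_le (by positivity)
  have hJ1 : 24 / Real.pi * l - 1 ≤ J := by
    have := Nat.lt_floor_add_one (24 / Real.pi * l)
    linarith
  have hJ3 : 1 ≤ J := by
    rw [hJ]
    apply Nat.le_floor
    push_cast
    have : 6 < 24 / Real.pi := by rw [lt_div_iff₀ hpi]; linarith
    nlinarith
  have hexpJ : Real.exp (Real.pi / 6 * J) ≤ (q : ℝ) ^ 4 := by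
    have h1 : Real.pi / 6 * J ≤ 4 * l := by
      calc Real.pi / 6 * J ≤ Real.pi / 6 * (24 / Real.pi * l) :=
            mul_le_mul_of_nonneg_left hJ2 (by positivity)
        _ = 4 * l := by field_simp; ring
    calc Real.exp (Real.pi / 6 * J) ≤ Real.exp (4 * l) := Real.exp_le_exp.2 h1
      _ = (q : ℝ) ^ 4 := by
        rw [show (4 : ℝ) * l = (4 : ℕ) * l by norm_num, Real.exp_nat_mul, hl, Real.exp_log hq0]
  have hT1 : (16 / Real.pi + η) * l ≤ T := Nat.le_ceil _
  have hT2 : (T : ℝ) ≤ (16 / Real.pi + η) * l + 1 :=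
    (Nat.ceil_lt_add_one (by positivity)).le
  have hK1nn : 0 ≤ (2 / Real.pi - η) * (K * l) := by
    have : 0 ≤ 2 / Real.pi - η := by linarith
    positivity
  have hK1a : (K₁ : ℝ) ≤ (2 / Real.pi - η) * (K * l) := Nat.floor_le hK1nn
  have hK1b : (2 / Real.pi - η) * (K * l) - 1 ≤ K₁ := by
    have := Nat.lt_floor_add_one ((2 / Real.pi - η) * (K * l))
    linarith
  have hnum := num_ineq hK50 hη hl10 hK1b hJ1 hT2
  -- the special event
  have hsq : Real.sqrt ((2 ^ (8 * r) : ℕ) : ℝ) = (q : ℝ) ^ 4 := by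
    rw [hm]
    push_cast
    rw [show (q : ℝ) ^ 8 = ((q : ℝ) ^ 4) ^ 2 by ring, Real.sqrt_sq (by positivity)]
  obtain ⟨E, hEm, hEd, hEp, hEs⟩ := hspec (8 * r) J (by omega) hJ3 (by rw [hsq]; exact hexpJ)
  rw [hm] at hEd hEp hEs
  set m := q ^ 8 with hmdef
  set p := (ga E).toReal with hp
  have hpE : ga E = ENNReal.ofReal p := (ENNReal.ofReal_toReal (measure_ne_top _ _)).symm
  have hm0 : (0 : ℝ) < (m : ℕ) := by rw [hmdef]; positivity
  have hp_lb : ((m : ℕ) : ℝ) ^ (-C) ≤ p := by
    rw [hpE] at hEp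
    have h0 : 0 ≤ p := ENNReal.toReal_nonneg
    exact (ENNReal.ofReal_le_ofReal_iff h0).1 hEp
  have hp0 : 0 < p := lt_of_lt_of_le (Real.rpow_pos_of_pos hm0 _) hp_lb
  have hp1 : p ≤ 1 := by
    have := prob_le_one (μ := ga) (s := E)
    rw [hpE] at this
    exact ENNReal.ofReal_le_one.1 this
  set L := ⌈1 / p⌉₊ with hL
  have hLa : 1 / p ≤ L := Nat.le_ceil _
  have hLb : (L : ℝ) ≤ 1 / p + 1 := (Nat.ceil_lt_add_one (by positivity)).le
  have hL1 : 1 ≤ L * p := by
    rw [div_le_iff₀ hp0] at hLa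
    exact hLa
  have hL2 : L * p ≤ 2 := by
    calc L * p ≤ (1 / p + 1) * p := mul_le_mul_of_nonneg_right hLb hp0.le
      _ = 1 + p := by field_simp
      _ ≤ 2 := by linarith
  have hLm : L * m ≤ q ^ K := by
    have h1 : 1 / p ≤ ((m : ℕ) : ℝ) ^ C := by
      rw [div_le_iff₀ hp0]
      calc (1 : ℝ) = ((m : ℕ) : ℝ) ^ C * ((m : ℕ) : ℝ) ^ (-C) := by
            rw [← Real.rpow_add hm0]; simp
        _ ≤ ((m : ℕ) : ℝ) ^ C * p :=
            mul_le_mul_of_nonneg_left hp_lb (Real.rpow_nonneg hm0.le _)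
    have h2 : ((m : ℕ) : ℝ) ^ C = (q : ℝ) ^ (8 * C) := by
      rw [hmdef]
      push_cast
      rw [← Real.rpow_natCast (q : ℝ) 8, ← Real.rpow_mul hq0.le]
      norm_num
    rw [h2] at h1
    have hqge1 : (1 : ℝ) ≤ q := by linarith
    have h3 : (1 : ℝ) ≤ (q : ℝ) ^ (8 * C) := Real.one_le_rpow hqge1 (by positivity)
    have h4 : (L : ℝ) ≤ 2 * (q : ℝ) ^ (8 * C) := by linarith
    have h5 : ((L * m : ℕ) : ℝ) ≤ ((q ^ K : ℕ) : ℝ) := by
      push_cast
      rw [hmdef]
      push_cast
      calc (L : ℝ) * (q : ℝ) ^ 8 ≤ (2 * (q : ℝ) ^ (8 * C)) * (q : ℝ) ^ 8 :=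
            mul_le_mul_of_nonneg_right h4 (by positivity)
        _ ≤ ((q : ℝ) * (q : ℝ) ^ (8 * C)) * (q : ℝ) ^ 8 := by gcongr
        _ = (q : ℝ) ^ (8 * C + 9) := by
            rw [← Real.rpow_natCast (q : ℝ) 8]
            nth_rewrite 1 [← Real.rpow_one (q : ℝ)]
            rw [← Real.rpow_add hq0, ← Real.rpow_add hq0]
            congr 1
            push_cast
            ring
        _ ≤ (q : ℝ) ^ (K : ℝ) := Real.rpow_le_rpow_of_exponent_le hqge1 (by linarith)
        _ = (q : ℝ) ^ K := Real.rpow_natCast _ _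
    exact_mod_cast h5
  -- the trials
  set n : ℕ → ℕ := fun i => q ^ K + i * m with hn
  have hnle : ∀ i < L, n i + m ≤ 2 * q ^ K := by
    intro i hi
    have : i * m + m ≤ L * m := by
      calc i * m + m = (i + 1) * m := by ring
        _ ≤ L * m := Nat.mul_le_mul_right _ hi
    simp only [hn]
    omega
  choose B hBm hBd hBp hBg using fun i => hqG q hqG' (n i) (Nat.le_add_right _ _)
  have hmain := union_lb hN L (fun i => {a | rv a (n i + m) ∈ E}) B
    (fun i => {k | n i ≤ k ∧ k < n i + m}) (fun i => {k | k < n i}) p hp0 hp1 hL1 hL2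
    (by
      intro i _
      refine ⟨measurable_rv _ hEm, ?_⟩
      intro a a' h
      refine hEd ?_
      intro k hk
      have hk' : k < m := hk
      refine h _ ?_
      show n i ≤ n i + m - 1 - k ∧ n i + m - 1 - k < n i + m
      omega)
    (by
      have key : ∀ i j : ℕ, i < j → Disjoint {k | n i ≤ k ∧ k < n i + m}
          {k | n j ≤ k ∧ k < n j + m} := by
        intro i j hij
        rw [Set.disjoint_left]
        intro k hk hk'
        have h1 : n i + m ≤ n j := by
          simp only [hn]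
          have : i * m + m ≤ j * m := by
            calc i * m + m = (i + 1) * m := by ring
              _ ≤ j * m := Nat.mul_le_mul_right _ hij
          omega
        have h2 := hk.2
        have h3 := hk'.1
        omega
      intro i _ j _ hij
      rcases lt_or_gt_of_ne hij with h | h
      · exact key i j h
      · exact (key j i h).symm)
    (by
      intro i _
      rw [← hpE]
      refine hI (fun k => n i + m - 1 - k) {k | k < m} ?_ E hEm hEd
      intro k hk k' hk' h
      have h1 : k < m := hk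
      have h2 : k' < m := hk'
      simp only at h
      omega)
    (fun i _ => ⟨hBm i, hBd i, hBp i⟩)
    (by
      intro i _
      rw [Set.disjoint_left]
      intro k hk hk'
      have h1 := hk.1
      have h2 : k < n i := hk'
      omega)
  refine hmain.trans (measure_mono ?_)
  intro a ha
  obtain ⟨i, hi, haE, haB⟩ := Set.mem_iUnion₂.1 ha
  have hi' := mem_range.1 hi
  have hgood : Good a q (n i) K₁ T := hBg i a haB K₁ T hK1a hT1
  have hsp : Sp C m J (rv a (n i + m)) := hEs _ haE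
  have hkR : 0 ≤ (K₁ : ℝ) + J - T - 10 := by
    refine le_trans ?_ hnum
    have : 0 < Real.log 2 := Real.log_pos (by norm_num)
    positivity
  have hkN : T + 10 ≤ K₁ + J := by
    have : ((T + 10 : ℕ) : ℝ) ≤ ((K₁ + J : ℕ) : ℝ) := by push_cast; linarith
    exact_mod_cast this
  refine ⟨n i + m, by simp only [hn]; omega, K₁ + J - (T + 10), ?_, ?_⟩
  · exact hqS q hqS' (n i) (Nat.le_add_right _ _) (by have := hnle i hi'; omega) a K₁ T J hJ3 hexpJ
      hgood hsp _ (by omega)
  · have h1 : ((K₁ + J - (T + 10) : ℕ) : ℝ) = (K₁ : ℝ) + J - T - 10 := by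
      rw [Nat.cast_sub hkN]
      push_cast
      ring
    rw [h1]
    refine le_trans (mul_le_mul_of_nonneg_left ?_ (by positivity)) hnum
    have h2 : ((n i + m : ℕ) : ℝ) ≤ 2 * (q : ℝ) ^ K := by
      have := hnle i hi'
      exact_mod_cast this
    have h3 : (0 : ℝ) < ((n i + m : ℕ) : ℝ) := by
      have : 0 < m := by rw [hmdef]; positivity
      exact_mod_cast (by omega : 0 < n i + m)
    calc Real.log ((n i + m : ℕ) : ℝ) ≤ Real.log (2 * (q : ℝ) ^ K) := Real.log_le_log h3 h2
      _ = Real.log 2 + K * l := by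
        rw [Real.log_mul (by norm_num) (by positivity), Real.log_pow]

end Pool.Agent.W540.KZ
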